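import Mathlib

/-!
The largest `3`-cube-free subset of `ZMod (2 ^ n)` has exactly `5/8 * 2 ^ n` elements (`n ≥ 3`).
-/

namespace Pool.Agent.Results.MP_18fe88_co.FiveEighths

/-- `A ⊆ ℤ/2ⁿ` is `d`-cube-free: there is no multiset (given as a family `a : Fin d → ℤ/2ⁿ`) of `d`
elements all of whose nonempty subset sums lie in `A`. -/
def CubeFree (n d : ℕ) (A : Finset (ZMod (2 ^ n))) : Prop :=
  ¬ ∃ a : Fin d → ZMod (2 ^ n), ∀ I : Finset (Fin d), I.Nonempty → ∑ i ∈ I, a i ∈ A

/-! ### The finite certificate -/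

/-- Entries `(i, w, [(m, a, b, c), ...])`: the integer `i` has weight `w`, and each `m` is the set
(bit mask) of the elements other than `i` of the cube generated by `a, b, c`. -/
def items : List (ℕ × ℕ × List (ℕ × ℕ × ℕ × ℕ)) := [
  (2, 14, []),
  (3, 14, []),
  (6, 14, []),
  (1, 11, [(12, 1, 1, 1)]),
  (4, 11, [(68, 2, 2, 2)]),
  (9, 10, [(72, 3, 3, 3)]),
  (12, 10, []),
  (8, 9, [(4112, 4, 4, 4)]),
  (7, 8, [(326, 1, 1, 6), (774, 1, 1, 7), (90, 1, 3, 3)]),
  (5, 6, [(198, 1, 1, 5), (786, 1, 4, 4), (156, 2, 2, 3), (660, 2, 2, 5), (332, 2, 3, 3), (410, 1, 3, 4)]),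
  (10, 6, [(774, 1, 1, 8), (4260, 2, 5, 5), (216, 3, 3, 4), (626, 1, 4, 5), (428, 2, 3, 5)]),
  (14, 6, [(5140, 2, 2, 10), (4420, 2, 6, 6), (1360, 4, 4, 6), (1584, 4, 5, 5), (4772, 2, 5, 7)]),
  (16, 6, [(20500, 2, 2, 12), (17028, 2, 7, 7), (5200, 4, 6, 6), (17732, 2, 6, 8)]),
  (18, 6, [(4160, 6, 6, 6), (81940, 2, 2, 14), (66820, 2, 8, 8), (17680, 4, 4, 10)]),
  (21, 6, [(16512, 7, 7, 7), (266760, 3, 9, 9)]),
  (11, 4, [(1542, 1, 1, 9), (5126, 1, 1, 10), (1122, 1, 5, 5), (660, 2, 2, 7), (360, 3, 3, 5), (16712, 3, 3, 8), (408, 3, 4, 4), (278672, 4, 7, 7), (66656, 5, 5, 6), (2163744, 5, 5, 11), (4322, 1, 5, 6), (328324, 2, 7, 9), (17560, 3, 4, 7), (21036, 2, 3, 9), (70320, 4, 5, 7)]),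
  (13, 4, [(6150, 1, 1, 11), (20486, 1, 1, 12), (4290, 1, 6, 6), (2580, 2, 2, 9), (1224, 3, 3, 7), (66632, 3, 3, 10), (1320, 3, 5, 5), (816, 4, 4, 5), (263456, 5, 5, 8), (2162976, 5, 8, 8), (16834, 1, 6, 7), (67880, 3, 5, 8), (279088, 4, 5, 9), (5658, 1, 3, 9), (19482, 1, 3, 10), (17250, 1, 5, 8), (84012, 2, 3, 11), (2532, 2, 5, 6), (329892, 2, 5, 11), (70296, 3, 4, 9), (2362632, 3, 8, 10)]),
  (19, 4, [(263682, 1, 9, 9), (73800, 3, 3, 13), (67848, 3, 8, 8), (17952, 5, 5, 9), (20640, 5, 7, 7), (12480, 6, 6, 7), (286818, 1, 5, 13), (268674, 1, 7, 11), (2424876, 2, 3, 16), (2108676, 2, 8, 11), (2104836, 2, 9, 10), (71304, 3, 7, 9), (26976, 5, 6, 8)]),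
  (23, 4, [(2621460, 2, 2, 19), (271392, 5, 5, 13), (279072, 5, 9, 9), (82560, 7, 7, 9), (2424996, 2, 5, 16), (2120196, 2, 9, 12), (2112516, 2, 10, 11), (596112, 4, 7, 12), (550416, 4, 9, 10), (333984, 5, 7, 11)]),
  (15, 3, [(1056, 5, 5, 5), (24582, 1, 1, 13), (81926, 1, 1, 14), (16770, 1, 7, 7), (10260, 2, 2, 11), (2359368, 3, 3, 15), (2448, 4, 4, 7), (526608, 4, 4, 11), (8913168, 4, 4, 15), (2101824, 6, 6, 9), (8454528, 7, 8, 8), (66434, 1, 7, 8), (22554, 1, 3, 11), (77850, 1, 3, 12), (851994, 1, 3, 15), (71730, 1, 4, 11), (802866, 1, 4, 14), (67266, 1, 6, 9), (335916, 2, 3, 13), (9156, 2, 6, 7), (2629956, 2, 6, 13), (10495236, 2, 8, 13), (594072, 3, 4, 12), (265608, 3, 7, 8), (534096, 4, 6, 9)]),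
  (17, 3, [(98310, 1, 1, 15), (327686, 1, 1, 16), (786438, 1, 1, 17), (66306, 1, 8, 8), (40980, 2, 2, 13), (557076, 2, 2, 15), (2621460, 2, 2, 17), (18504, 3, 3, 11), (17544, 3, 7, 7), (8976, 4, 4, 9), (2105616, 4, 4, 13), (5280, 5, 5, 7), (6240, 5, 6, 6), (8394816, 6, 6, 11), (263938, 1, 8, 9), (90138, 1, 3, 13), (311322, 1, 3, 14), (77874, 1, 4, 12), (286770, 1, 4, 13), (68802, 1, 6, 10), (265602, 1, 7, 10), (53292, 2, 3, 12), (606252, 2, 3, 14), (35652, 2, 6, 9), (534852, 2, 6, 11), (10518852, 2, 6, 15), (34692, 2, 7, 8), (530052, 2, 7, 10), (528132, 2, 8, 9), (21288, 3, 5, 9), (2167344, 4, 5, 12), (11472, 4, 6, 7), (2133072, 4, 6, 11), (8922192, 4, 6, 13), (8463552, 6, 7, 10), (8438592, 6, 8, 9)]),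
  (20, 3, [(786438, 1, 1, 18), (2621446, 1, 1, 19), (2100226, 1, 10, 10), (327700, 2, 2, 16), (264708, 2, 9, 9), (147528, 3, 3, 14), (8519752, 3, 3, 17), (8397832, 3, 10, 10), (20800, 6, 6, 8), (24768, 6, 7, 7), (527874, 1, 9, 10), (267524, 2, 8, 10), (140424, 3, 7, 10), (83024, 4, 6, 10), (720922, 1, 3, 16), (2490394, 1, 3, 17), (622642, 1, 4, 15), (2293810, 1, 4, 16), (573538, 1, 5, 14), (2195554, 1, 5, 15), (536962, 1, 7, 12), (531202, 1, 8, 11), (2110210, 1, 8, 12), (426028, 2, 3, 15), (10747948, 2, 3, 18), (303268, 2, 5, 13), (204952, 3, 4, 13), (8978584, 3, 4, 16), (168232, 3, 5, 12), (8683816, 3, 5, 15), (137992, 3, 8, 9), (8427784, 3, 8, 12), (8411656, 3, 9, 11), (100912, 4, 5, 11), (76432, 4, 7, 9), (51808, 5, 6, 9), (45472, 5, 7, 8)]),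
  (24, 3, [(65792, 8, 8, 8), (2359368, 3, 3, 18), (1066000, 4, 10, 10), (541728, 5, 5, 14), (295488, 6, 9, 9), (148608, 7, 7, 10), (8402946, 1, 11, 12), (2134536, 3, 9, 12), (659616, 5, 7, 12), (11534362, 1, 3, 20), (9961522, 1, 4, 19), (9175138, 1, 5, 18), (8782018, 1, 6, 17), (8439298, 1, 9, 14), (8416258, 1, 10, 13), (3276952, 3, 4, 17), (2124808, 3, 10, 11), (1606192, 4, 5, 15), (1190032, 4, 7, 13), (1092112, 4, 9, 11), (796768, 5, 6, 13), (403648, 6, 7, 11)]),
  (22, 2, [(3145734, 1, 1, 20), (10485766, 1, 1, 21), (25165830, 1, 1, 22), (8394754, 1, 11, 11), (1310740, 2, 2, 18), (17825812, 2, 2, 20), (1053700, 2, 10, 10), (16787460, 2, 11, 11), (589896, 3, 3, 16), (278800, 4, 4, 14), (270864, 4, 9, 9), (136224, 5, 5, 12), (70720, 6, 6, 10), (82240, 6, 8, 8), (49536, 7, 7, 8), (2104322, 1, 10, 11), (1059332, 2, 9, 11), (16798724, 2, 10, 12), (542984, 3, 8, 11), (297104, 4, 7, 11), (198752, 5, 6, 11), (2883610, 1, 3, 18), (9961498, 1, 3, 19), (2490418, 1, 4,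 17), (9175090, 1, 4, 18), (2293858, 1, 5, 16), (8781922, 1, 5, 17), (2195650, 1, 6, 15), (8585410, 1, 6, 16), (2122498, 1, 8, 13), (8438530, 1, 8, 14), (2110978, 1, 9, 12), (8414722, 1, 9, 13), (1703980, 2, 3, 17), (19398700, 2, 3, 19), (1212580, 2, 5, 15), (17432740, 2, 5, 17), (1090180, 2, 7, 13), (16941700, 2, 7, 15), (819352, 3, 4, 15), (672040, 3, 5, 14), (562312, 3, 7, 12), (538120, 3, 9, 10), (156448, 5, 8, 9), (107200, 6, 7, 9)])]

/-- branch and bound -/
def bb : List (ℕ × ℕ × List (ℕ × ℕ × ℕ × ℕ)) → ℕ → ℕ → ℕ → Bool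
  | [], _, _, _ => true
  | (i, w, ms) :: rest, suf, S, bud =>
    Nat.ble suf bud ||
      ((ms.any (fun q => Nat.beq (Nat.land q.1 S) q.1) ||
        (Nat.ble w bud && bb rest (suf - w) (Nat.lor S (2 ^ i)) (bud - w)))
      && bb rest (suf - w) S bud)

/-- each mask of the entry is a cube with `i` removed -/
def okItem (it : ℕ × ℕ × List (ℕ × ℕ × ℕ × ℕ)) : Bool :=
  it.2.2.all (fun q =>
    [q.2.1, q.2.2.1, q.2.2.2, q.2.1 + q.2.2.1, q.2.1 + q.2.2.2, q.2.2.1 + q.2.2.2,
      q.2.1 + q.2.2.1 + q.2.2.2].all (fun j => j == it.1 || q.1.testBit j))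

theorem items_ok : items.all okItem = true := by decide +kernel

theorem items_bb : bb items 167 0 102 = true := by decide +kernel

theorem bb_sound (T : ℕ → Prop) [DecidablePred T]
    (hT : ∀ a b c, ¬ (T a ∧ T b ∧ T c ∧ T (a + b) ∧ T (a + c) ∧ T (b + c) ∧ T (a + b + c))) :
    ∀ (l : List (ℕ × ℕ × List (ℕ × ℕ × ℕ × ℕ))) (suf S bud : ℕ), l.all okItem = true →
      (l.map (fun it => it.2.1)).sum ≤ suf → (∀ i, S.testBit i = true → T i) →
      bb l suf S bud = true → (l.map (fun it => if T it.1 then it.2.1 else 0)).sum ≤ bud := by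
  intro l
  induction l with
  | nil => intro suf S bud _ _ _ _; simp
  | cons it rest ih =>
    obtain ⟨i, w, ms⟩ := it
    intro suf S bud hok hsuf hS hb
    rw [List.all_cons, Bool.and_eq_true] at hok
    rw [List.map_cons, List.sum_cons] at hsuf
    simp only at hsuf
    rw [bb, Bool.or_eq_true, Bool.and_eq_true, Bool.or_eq_true, Bool.and_eq_true] at hb
    have hle : ∀ (L : List (ℕ × ℕ × List (ℕ × ℕ × ℕ × ℕ))),
        (L.map (fun it => if T it.1 then it.2.1 else 0)).sum ≤ (L.map (fun it => it.2.1)).sum := by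
      intro L
      apply List.sum_le_sum
      intro it _
      split_ifs <;> simp
    rw [List.map_cons, List.sum_cons]
    simp only
    rcases hb with hb | ⟨hb1, hb2⟩
    · have h1 : suf ≤ bud := Nat.le_of_ble_eq_true hb
      have h2 := hle rest
      have h3 : (if T i then w else 0) ≤ w := by split_ifs <;> simp
      omega
    · have hsuf' : (rest.map (fun it => it.2.1)).sum ≤ suf - w := by omega
      by_cases hTi : T i
      · rcases hb1 with hb1 | ⟨hw, hb1⟩
        · exfalso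
          rw [List.any_eq_true] at hb1
          obtain ⟨q, hq, hq2⟩ := hb1
          have hq3 : Nat.land q.1 S = q.1 := Nat.eq_of_beq_eq_true hq2
          have hok1 := hok.1
          rw [okItem, List.all_eq_true] at hok1
          have hq4 := hok1 q hq
          rw [List.all_eq_true] at hq4
          have key : ∀ j, (j == i || q.1.testBit j) = true → T j := by
            intro j hj
            rw [Bool.or_eq_true] at hj
            rcases hj with hj | hj
            · rw [beq_iff_eq] at hj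
              rw [hj]; exact hTi
            · apply hS
              have : (Nat.land q.1 S).testBit j = true := by rw [hq3]; exact hj
              have h5 : (q.1 &&& S).testBit j = true := this
              rw [Nat.testBit_and, Bool.and_eq_true] at h5
              exact h5.2
          apply hT q.2.1 q.2.2.1 q.2.2.2
          refine ⟨key _ (hq4 _ ?_), key _ (hq4 _ ?_), key _ (hq4 _ ?_), key _ (hq4 _ ?_),
            key _ (hq4 _ ?_), key _ (hq4 _ ?_), key _ (hq4 _ ?_)⟩ <;> simp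
        · have hw' : w ≤ bud := Nat.le_of_ble_eq_true hw
          have hS' : ∀ j, (Nat.lor S (2 ^ i)).testBit j = true → T j := by
            intro j hj
            have h5 : (S ||| 2 ^ i).testBit j = true := hj
            rw [Nat.testBit_or, Bool.or_eq_true] at h5
            rcases h5 with h5 | h5
            · exact hS j h5
            · rw [Nat.testBit_two_pow] at h5
              have : i = j := by simpa using h5
              rw [← this]; exact hTi
          have := ih (suf - w) _ (bud - w) hok.2 hsuf' hS' hb1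
          rw [if_pos hTi]
          omega
      · have := ih (suf - w) S bud hok.2 hsuf' hS hb2
        rw [if_neg hTi]
        omega

/-- the certificate, for a set `T` of naturals without `3`-cubes -/
theorem cert (T : ℕ → Prop) [DecidablePred T]
    (hT : ∀ a b c, ¬ (T a ∧ T b ∧ T c ∧ T (a + b) ∧ T (a + c) ∧ T (b + c) ∧ T (a + b + c))) :
    (items.map (fun it => if T it.1 then it.2.1 else 0)).sum ≤ 102 :=
  bb_sound T hT items 167 0 102 items_ok (by decide +kernel) (by intro i hi; simp at hi) items_bb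


/-! ### Parity sums in `ℤ/2ⁿ⁺¹` -/

/-- parity -/
def par (n : ℕ) : ZMod (2 ^ (n + 1)) →+* ZMod 2 :=
  ZMod.castHom (dvd_pow_self 2 (Nat.succ_ne_zero n)) (ZMod 2)

variable {n : ℕ}

/-- sum over the odd residues -/
def so (f : ZMod (2 ^ (n + 1)) → ℤ) : ℤ := ∑ x ∈ Finset.univ.filter (fun x => par n x = 1), f x
/-- sum over the even residues -/
def se (f : ZMod (2 ^ (n + 1)) → ℤ) : ℤ := ∑ x ∈ Finset.univ.filter (fun x => par n x = 0), f x
/-- sum over all residues -/
def sa (f : ZMod (2 ^ (n + 1)) → ℤ) : ℤ := ∑ x, f x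

theorem zmod2 (a : ZMod 2) : ¬ a = 1 ↔ a = 0 := by revert a; decide

theorem sa_eq (f : ZMod (2 ^ (n + 1)) → ℤ) : sa f = so f + se f := by
  unfold sa so se
  rw [← Finset.sum_filter_add_sum_filter_not Finset.univ (fun x => par n x = 1) f]
  congr 1
  apply Finset.sum_congr _ (fun _ _ => rfl)
  ext x
  simp [zmod2]

theorem so_add_odd (f : ZMod (2 ^ (n + 1)) → ℤ) (x : ZMod (2 ^ (n + 1))) (hx : par n x = 1) :
    so (fun y => f (x + y)) = se f := by
  unfold so se
  apply Finset.sum_equiv (Equiv.addLeft x)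
  · intro y
    simp only [Finset.mem_filter, Finset.mem_univ, true_and, Equiv.coe_addLeft, map_add, hx]
    generalize par n y = b
    revert b; decide
  · intro y _; rfl

theorem se_add_odd (f : ZMod (2 ^ (n + 1)) → ℤ) (x : ZMod (2 ^ (n + 1))) (hx : par n x = 1) :
    se (fun y => f (x + y)) = so f := by
  unfold so se
  apply Finset.sum_equiv (Equiv.addLeft x)
  · intro y
    simp only [Finset.mem_filter, Finset.mem_univ, true_and, Equiv.coe_addLeft, map_add, hx]
    generalize par n y = b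
    revert b; decide
  · intro y _; rfl

theorem so_add_even (f : ZMod (2 ^ (n + 1)) → ℤ) (x : ZMod (2 ^ (n + 1))) (hx : par n x = 0) :
    so (fun y => f (x + y)) = so f := by
  unfold so
  apply Finset.sum_equiv (Equiv.addLeft x)
  · intro y
    simp only [Finset.mem_filter, Finset.mem_univ, true_and, Equiv.coe_addLeft, map_add, hx]
    generalize par n y = b
    revert b; decide
  · intro y _; rfl

theorem sa_add (f : ZMod (2 ^ (n + 1)) → ℤ) (x : ZMod (2 ^ (n + 1))) :
    sa (fun y => f (x + y)) = sa f := by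
  unfold sa
  exact Fintype.sum_equiv (Equiv.addLeft x) _ _ (fun _ => rfl)

theorem so_mul_odd (f : ZMod (2 ^ (n + 1)) → ℤ) (c : ℕ) (hc : Odd c) :
    so (fun y : ZMod (2 ^ (n + 1)) => f ((c : ZMod (2 ^ (n + 1))) * y)) = so f := by
  have hcop : Nat.Coprime c (2 ^ (n + 1)) := by
    apply Nat.Coprime.pow_right
    rw [Nat.coprime_two_right]; exact hc
  set u := ZMod.unitOfCoprime c hcop with hu
  have hu' : (u : ZMod (2 ^ (n + 1))) = c := ZMod.coe_unitOfCoprime c hcop
  unfold so
  apply Finset.sum_equiv (Units.mulLeft u)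
  · intro y
    have h1 : par n (c : ZMod (2 ^ (n + 1))) = 1 := by
      rw [map_natCast]
      rw [ZMod.natCast_eq_one_iff_odd]; exact hc
    simp only [Finset.mem_filter, Finset.mem_univ, true_and, Units.mulLeft_apply, map_mul, hu', h1,
      one_mul]
  · intro y _
    simp [hu']

theorem two_mul_eq_zero (u : ZMod (2 ^ (n + 1))) :
    2 * u = 0 ↔ u = 0 ∨ u = ((2 ^ n : ℕ) : ZMod (2 ^ (n + 1))) := by
  have : NeZero (2 ^ (n + 1)) := ⟨by positivity⟩
  constructor
  · intro h
    have h1 : ((2 * u.val : ℕ) : ZMod (2 ^ (n + 1))) = 0 := by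
      push_cast
      rw [ZMod.natCast_zmod_val]; exact h
    rw [ZMod.natCast_eq_zero_iff] at h1
    have h0 : 2 * 2 ^ n ∣ 2 ^ (n + 1) := by rw [pow_succ, mul_comm]
    have h2 : 2 ^ n ∣ u.val := (Nat.mul_dvd_mul_iff_left (by norm_num)).1 (h0.trans h1)
    obtain ⟨k, hk⟩ := h2
    have h3 := ZMod.val_lt u
    rw [hk, pow_succ] at h3
    have h4 : k < 2 := lt_of_mul_lt_mul_left h3 (Nat.zero_le _)
    have h5 : u = ((2 ^ n * k : ℕ) : ZMod (2 ^ (n + 1))) := by
      rw [← hk, ZMod.natCast_zmod_val]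
    interval_cases k
    · left; rw [h5]; simp
    · right; rw [h5]; simp
  · rintro (h | h)
    · rw [h]; simp
    · rw [h]
      have : ((2 * 2 ^ n : ℕ) : ZMod (2 ^ (n + 1))) = 0 := by
        rw [ZMod.natCast_eq_zero_iff, pow_succ, mul_comm]
      push_cast at this ⊢
      exact this

theorem half_ne_zero : ((2 ^ n : ℕ) : ZMod (2 ^ (n + 1))) ≠ 0 := by
  intro h
  rw [ZMod.natCast_eq_zero_iff] at h
  have := Nat.le_of_dvd (by positivity) h
  have h2 : 2 ^ n < 2 ^ (n + 1) := Nat.pow_lt_pow_right (by norm_num) (by omega)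
  omega

theorem even_exists (w : ZMod (2 ^ (n + 1))) (hw : par n w = 0) : ∃ z, w = 2 * z := by
  have : NeZero (2 ^ (n + 1)) := ⟨by positivity⟩
  have h1 : ((w.val : ℕ) : ZMod 2) = 0 := by
    have h2 : par n ((w.val : ℕ) : ZMod (2 ^ (n + 1))) = 0 := by
      rw [ZMod.natCast_zmod_val]; exact hw
    rwa [map_natCast] at h2
  rw [ZMod.natCast_eq_zero_iff] at h1
  obtain ⟨k, hk⟩ := h1
  refine ⟨(k : ZMod (2 ^ (n + 1))), ?_⟩
  rw [← ZMod.natCast_zmod_val w, hk]; push_cast; rfl

theorem par_two_mul (z : ZMod (2 ^ (n + 1))) : par n (2 * z) = 0 := by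
  rw [map_mul]
  have : par n 2 = 0 := by
    rw [map_ofNat]; decide
  rw [this, zero_mul]

theorem sa_two_mul (f : ZMod (2 ^ (n + 1)) → ℤ) : sa (fun z => f (2 * z)) = 2 * se f := by
  classical
  have : NeZero (2 ^ (n + 1)) := ⟨by positivity⟩
  unfold sa se
  rw [← Finset.sum_fiberwise_of_maps_to (s := Finset.univ)
    (t := Finset.univ.filter (fun x => par n x = 0)) (g := fun z => 2 * z)
    (by intro z _; simp [par_two_mul])]
  rw [Finset.mul_sum]
  apply Finset.sum_congr rfl
  intro w hw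
  rw [Finset.mem_filter] at hw
  obtain ⟨z0, hz0⟩ := even_exists w hw.2
  have hset : (Finset.univ.filter (fun z : ZMod (2 ^ (n + 1)) => 2 * z = w)) =
      {z0, z0 + ((2 ^ n : ℕ) : ZMod (2 ^ (n + 1)))} := by
    ext z
    simp only [Finset.mem_filter, Finset.mem_univ, true_and, Finset.mem_insert,
      Finset.mem_singleton]
    rw [hz0, ← sub_eq_zero, ← mul_sub, two_mul_eq_zero, sub_eq_zero]
    constructor
    · rintro (h | h)
      · left; exact h
      · right; rw [← h]; ring
    · rintro (h | h)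
      · left; exact h
      · right; rw [h]; ring
  rw [hset]
  rw [Finset.sum_pair]
  · have h1 : 2 * (z0 + ((2 ^ n : ℕ) : ZMod (2 ^ (n + 1)))) = w := by
      have := (two_mul_eq_zero (n := n) ((2 ^ n : ℕ) : ZMod (2 ^ (n + 1)))).2 (Or.inr rfl)
      rw [mul_add, this, add_zero, hz0]
    rw [h1, ← hz0]; ring
  · intro h
    apply half_ne_zero (n := n)
    have : z0 + 0 = z0 + ((2 ^ n : ℕ) : ZMod (2 ^ (n + 1))) := by rw [add_zero]; exact h
    exact (add_left_cancel this).symm

theorem sa_one : sa (fun _ : ZMod (2 ^ (n + 1)) => (1 : ℤ)) = 2 * 2 ^ n := by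
  unfold sa
  simp [ZMod.card, pow_succ, mul_comm]

theorem par_one : par n 1 = 1 := map_one _

theorem so_one : so (fun _ : ZMod (2 ^ (n + 1)) => (1 : ℤ)) = 2 ^ n := by
  have h1 := sa_one (n := n)
  rw [sa_eq] at h1
  have h2 := so_add_odd (fun _ : ZMod (2 ^ (n + 1)) => (1 : ℤ)) 1 par_one
  simp only at h2
  rw [← h2] at h1
  linarith

theorem so_mono {f g : ZMod (2 ^ (n + 1)) → ℤ} (h : ∀ x, par n x = 1 → f x ≤ g x) :
    so f ≤ so g := by
  unfold so
  apply Finset.sum_le_sum
  intro x hx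
  exact h x (Finset.mem_filter.1 hx).2

theorem sa_mono {f g : ZMod (2 ^ (n + 1)) → ℤ} (h : ∀ x, f x ≤ g x) :
    sa f ≤ sa g := Finset.sum_le_sum (fun x _ => h x)

theorem so_add (f g : ZMod (2 ^ (n + 1)) → ℤ) : so (fun x => f x + g x) = so f + so g :=
  Finset.sum_add_distrib
theorem sa_add' (f g : ZMod (2 ^ (n + 1)) → ℤ) : sa (fun x => f x + g x) = sa f + sa g :=
  Finset.sum_add_distrib
theorem se_add' (f g : ZMod (2 ^ (n + 1)) → ℤ) : se (fun x => f x + g x) = se f + se g :=
  Finset.sum_add_distrib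
theorem so_mul (c : ℤ) (f : ZMod (2 ^ (n + 1)) → ℤ) : so (fun x => c * f x) = c * so f :=
  (Finset.mul_sum _ _ _).symm
theorem so_const (c : ℤ) : so (fun _ : ZMod (2 ^ (n + 1)) => c) = c * 2 ^ n := by
  have := so_mul c (fun _ : ZMod (2 ^ (n + 1)) => (1 : ℤ))
  rw [so_one] at this
  simpa using this
theorem sa_const (c : ℤ) : sa (fun _ : ZMod (2 ^ (n + 1)) => c) = c * (2 * 2 ^ n) := by
  have h : sa (fun _ : ZMod (2 ^ (n + 1)) => c * 1) = c * sa (fun _ : ZMod (2 ^ (n + 1)) => (1 : ℤ)) :=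
    (Finset.mul_sum _ _ _).symm
  rw [sa_one] at h
  simpa using h


/-! ### The densities of the dilates -/

/-- indicator function -/
def ind (A : Finset (ZMod (2 ^ (n + 1)))) (x : ZMod (2 ^ (n + 1))) : ℤ := if x ∈ A then 1 else 0

/-- no `3`-cube, explicit form -/
def Q (A : Finset (ZMod (2 ^ (n + 1)))) : Prop :=
  ∀ a b c, ¬ (a ∈ A ∧ b ∈ A ∧ c ∈ A ∧ a + b ∈ A ∧ a + c ∈ A ∧ b + c ∈ A ∧ a + b + c ∈ A)

/-- `#{z : 2 ^ j z ∈ A}` -/
def aj (A : Finset (ZMod (2 ^ (n + 1)))) (j : ℕ) : ℤ := sa (fun z => ind A (2 ^ j * z))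
/-- `#{x odd : 2 ^ j x ∈ A}` -/
def Bj (A : Finset (ZMod (2 ^ (n + 1)))) (j : ℕ) : ℤ := so (fun x => ind A (2 ^ j * x))
/-- `#{x odd : i x ∈ A}` -/
def Cj (A : Finset (ZMod (2 ^ (n + 1)))) (i : ℕ) : ℤ :=
  so (fun x => ind A ((i : ZMod (2 ^ (n + 1))) * x))

theorem rel (A : Finset (ZMod (2 ^ (n + 1)))) (j : ℕ) : 2 * aj A j = 2 * Bj A j + aj A (j + 1) := by
  have h1 : aj A (j + 1) = 2 * se (fun w => ind A (2 ^ j * w)) := by
    rw [← sa_two_mul]
    unfold aj
    congr 1
    funext z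
    have e : (2 : ZMod (2 ^ (n + 1))) ^ (j + 1) * z = 2 ^ j * (2 * z) := by ring
    rw [e]
  have h2 := sa_eq (fun w => ind A (2 ^ j * w))
  rw [h1]
  unfold aj Bj
  linarith

theorem Cj_eq (A : Finset (ZMod (2 ^ (n + 1)))) (v m : ℕ) (hm : Odd m) :
    Cj A (2 ^ v * m) = Bj A v := by
  unfold Cj Bj
  rw [← so_mul_odd (fun x => ind A (2 ^ v * x)) m hm]
  congr 1
  funext x
  push_cast
  rw [mul_assoc]

theorem Bj_nonneg (A : Finset (ZMod (2 ^ (n + 1)))) (j : ℕ) : 0 ≤ Bj A j := by
  unfold Bj so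
  apply Finset.sum_nonneg
  intro x _
  unfold ind
  split_ifs <;> norm_num

theorem so_list (l : List (ℕ × ℕ × List (ℕ × ℕ × ℕ × ℕ))) (A : Finset (ZMod (2 ^ (n + 1)))) :
    so (fun x => (l.map (fun it => (it.2.1 : ℤ) * ind A ((it.1 : ZMod (2 ^ (n + 1))) * x))).sum) =
      (l.map (fun it => (it.2.1 : ℤ) * Cj A it.1)).sum := by
  induction l with
  | nil => simp [so]
  | cons it rest ih =>
    simp only [List.map_cons, List.sum_cons]
    rw [so_add, so_mul, ih]
    rfl

theorem cert_sum (A : Finset (ZMod (2 ^ (n + 1)))) (hQ : Q A) :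
    (items.map (fun it => (it.2.1 : ℤ) * Cj A it.1)).sum ≤ 102 * 2 ^ n := by
  rw [← so_list, ← so_const]
  apply so_mono
  intro x _
  have h := cert (fun c => (c : ZMod (2 ^ (n + 1))) * x ∈ A) (by
    intro a b c h
    apply hQ (a * x) (b * x) (c * x)
    have e1 : (a : ZMod (2 ^ (n + 1))) * x + b * x = ((a + b : ℕ) : ZMod (2 ^ (n + 1))) * x := by
      push_cast; ring
    have e2 : (a : ZMod (2 ^ (n + 1))) * x + c * x = ((a + c : ℕ) : ZMod (2 ^ (n + 1))) * x := by
      push_cast; ring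
    have e3 : (b : ZMod (2 ^ (n + 1))) * x + c * x = ((b + c : ℕ) : ZMod (2 ^ (n + 1))) * x := by
      push_cast; ring
    have e4 : (a : ZMod (2 ^ (n + 1))) * x + b * x + c * x =
        ((a + b + c : ℕ) : ZMod (2 ^ (n + 1))) * x := by
      push_cast; ring
    rw [e4, e1, e2, e3]
    exact h)
  have h2 : ∀ l : List (ℕ × ℕ × List (ℕ × ℕ × ℕ × ℕ)),
      (l.map (fun it => (it.2.1 : ℤ) * ind A ((it.1 : ZMod (2 ^ (n + 1))) * x))).sum =
      (((l.map (fun it => if (it.1 : ZMod (2 ^ (n + 1))) * x ∈ A then it.2.1 else 0)).sum : ℕ) : ℤ)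
      := by
    intro l
    induction l with
    | nil => simp
    | cons it rest ih =>
      simp only [List.map_cons, List.sum_cons]
      rw [ih]
      push_cast
      congr 1
      unfold ind
      split_ifs <;> simp
  rw [h2]
  exact_mod_cast h

theorem cert_ineq (A : Finset (ZMod (2 ^ (n + 1)))) (hQ : Q A) :
    77 * Bj A 0 + 48 * Bj A 1 + 24 * Bj A 2 + 12 * Bj A 3 + 6 * Bj A 4 ≤ 102 * 2 ^ n := by
  have h := cert_sum A hQ
  simp only [items, List.map_cons, List.map_nil, List.sum_cons, List.sum_nil] at h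
  have c1 : Cj A 1 = Bj A 0 := Cj_eq A 0 1 (by decide)
  have c2 : Cj A 2 = Bj A 1 := Cj_eq A 1 1 (by decide)
  have c3 : Cj A 3 = Bj A 0 := Cj_eq A 0 3 (by decide)
  have c4 : Cj A 4 = Bj A 2 := Cj_eq A 2 1 (by decide)
  have c5 : Cj A 5 = Bj A 0 := Cj_eq A 0 5 (by decide)
  have c6 : Cj A 6 = Bj A 1 := Cj_eq A 1 3 (by decide)
  have c7 : Cj A 7 = Bj A 0 := Cj_eq A 0 7 (by decide)
  have c8 : Cj A 8 = Bj A 3 := Cj_eq A 3 1 (by decide)
  have c9 : Cj A 9 = Bj A 0 := Cj_eq A 0 9 (by decide)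
  have c10 : Cj A 10 = Bj A 1 := Cj_eq A 1 5 (by decide)
  have c11 : Cj A 11 = Bj A 0 := Cj_eq A 0 11 (by decide)
  have c12 : Cj A 12 = Bj A 2 := Cj_eq A 2 3 (by decide)
  have c13 : Cj A 13 = Bj A 0 := Cj_eq A 0 13 (by decide)
  have c14 : Cj A 14 = Bj A 1 := Cj_eq A 1 7 (by decide)
  have c15 : Cj A 15 = Bj A 0 := Cj_eq A 0 15 (by decide)
  have c16 : Cj A 16 = Bj A 4 := Cj_eq A 4 1 (by decide)
  have c17 : Cj A 17 = Bj A 0 := Cj_eq A 0 17 (by decide)
  have c18 : Cj A 18 = Bj A 1 := Cj_eq A 1 9 (by decide)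
  have c19 : Cj A 19 = Bj A 0 := Cj_eq A 0 19 (by decide)
  have c20 : Cj A 20 = Bj A 2 := Cj_eq A 2 5 (by decide)
  have c21 : Cj A 21 = Bj A 0 := Cj_eq A 0 21 (by decide)
  have c22 : Cj A 22 = Bj A 1 := Cj_eq A 1 11 (by decide)
  have c23 : Cj A 23 = Bj A 0 := Cj_eq A 0 23 (by decide)
  have c24 : Cj A 24 = Bj A 3 := Cj_eq A 3 3 (by decide)
  rw [c1, c2, c3, c4, c5, c6, c7, c8, c9, c10, c11, c12, c13, c14, c15, c16, c17, c18, c19, c20,
    c21, c22, c23, c24] at h
  push_cast at h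
  linarith

/-! ### The main step -/

theorem par_two : par n 2 = 0 := by
  rw [map_ofNat]; decide

theorem step (A : Finset (ZMod (2 ^ (n + 1)))) (hQ : Q A)
    (hH : ∀ j, 1 ≤ j → 4 * aj A j ≤ 5 * 2 ^ n) : 4 * aj A 0 ≤ 5 * 2 ^ n := by
  have hN : (0 : ℤ) < 2 ^ n := by positivity
  have r0 := rel A 0
  have r1 := rel A 1
  have r2 := rel A 2
  have r3 := rel A 3
  have r4 := rel A 4
  norm_num at r0 r1 r2 r3 r4
  have hB0 : Bj A 0 = so (fun x => ind A x) := by unfold Bj; simp
  have ha1 : aj A 1 = 2 * se (fun w => ind A w) := by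
    rw [← sa_two_mul]; unfold aj; simp
  by_cases hc : 3 * 2 ^ n ≤ 4 * Bj A 0
  · by_cases hX : ∃ x, par n x = 1 ∧ x ∈ A ∧ x + x ∈ A
    · obtain ⟨x, hx, hxA, hx2⟩ := hX
      have h1 : so (fun y => ind A y + ind A (x + y) + ind A ((x + x) + y)) ≤ 2 * 2 ^ n := by
        rw [← so_const]
        apply so_mono
        intro y _
        have h := hQ x x y
        unfold ind
        split_ifs with h1 h2 h3 <;> norm_num
        exact h ⟨hxA, hxA, h1, hx2, h2, h2, h3⟩
      rw [so_add, so_add, so_add_odd (fun y => ind A y) x hx,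
        so_add_even (fun y => ind A y) (x + x) (by rw [map_add, hx]; decide), ← hB0] at h1
      linarith
    · have h1 : so (fun y => ind A y + ind A (2 * y)) ≤ 1 * 2 ^ n := by
        rw [← so_const]
        apply so_mono
        intro y hy
        unfold ind
        split_ifs with h1 h2 <;> norm_num
        exact hX ⟨y, hy, h1, by rw [← two_mul]; exact h2⟩
      rw [so_add, ← hB0] at h1
      have hB1 : Bj A 1 = so (fun y => ind A (2 * y)) := by unfold Bj; simp
      rw [← hB1] at h1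
      -- (K)
      have hK : aj A 2 + 2 * Bj A 0 ≤ 3 * 2 ^ n := by
        by_cases hY : ∃ x, par n x = 1 ∧ x ∈ A ∧ 3 * x ∈ A ∧ 4 * x ∈ A
        · obtain ⟨x, hx, hxA, hx3, hx4⟩ := hY
          have h2 : sa (fun z => ind A (4 * z) + ind A (x + 2 * (2 * z)) +
              ind A (x + 2 * (x + 2 * z)) + ind A (4 * (x + z))) ≤ 3 * (2 * 2 ^ n) := by
            rw [← sa_const]
            apply sa_mono
            intro z
            have h := hQ x (3 * x) (4 * z)
            have e1 : x + 3 * x = 4 * x := by ring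
            have e2 : x + 2 * (2 * z) = x + 4 * z := by ring
            have e3 : x + 2 * (x + 2 * z) = 3 * x + 4 * z := by ring
            have e4 : 4 * (x + z) = 4 * x + 4 * z := by ring
            rw [e1] at h
            rw [e2, e3, e4]
            unfold ind
            split_ifs with h1 h2 h3 h4 <;> norm_num
            exact h ⟨hxA, hx3, h1, hx4, h2, h3, h4⟩
          rw [sa_add', sa_add', sa_add'] at h2
          have e5 : sa (fun z => ind A (4 * (x + z))) = aj A 2 := by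
            rw [sa_add (fun z => ind A (4 * z)) x]
            unfold aj; norm_num
          have e6 : sa (fun z => ind A (4 * z)) = aj A 2 := by
            unfold aj; norm_num
          have e7 : sa (fun z => ind A (x + 2 * (2 * z))) = 2 * se (fun u => ind A (x + 2 * u)) :=
            sa_two_mul (fun u => ind A (x + 2 * u))
          have e8 : sa (fun z => ind A (x + 2 * (x + 2 * z))) =
              2 * se (fun u => ind A (x + 2 * (x + u))) :=
            sa_two_mul (fun u => ind A (x + 2 * (x + u)))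
          have e9 : se (fun u => ind A (x + 2 * (x + u))) = so (fun u => ind A (x + 2 * u)) :=
            se_add_odd (fun u => ind A (x + 2 * u)) x hx
          have e10 : sa (fun u => ind A (x + 2 * u)) =
              so (fun u => ind A (x + 2 * u)) + se (fun u => ind A (x + 2 * u)) := sa_eq _
          have e11 : sa (fun u => ind A (x + 2 * u)) = 2 * se (fun u => ind A (x + u)) :=
            sa_two_mul (fun u => ind A (x + u))
          have e12 : se (fun u => ind A (x + u)) = so (fun u => ind A u) :=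
            se_add_odd (fun u => ind A u) x hx
          rw [e5, e6, e7, e8, e9] at h2
          rw [e12, ← hB0] at e11
          linarith
        · have h2 : so (fun y => ind A y + ind A ((3 : ℕ) * y) + ind A (4 * y)) ≤ 2 * 2 ^ n := by
            rw [← so_const]
            apply so_mono
            intro y hy
            unfold ind
            split_ifs with h1 h2 h3 <;> norm_num
            exact hY ⟨y, hy, h1, by exact_mod_cast h2, h3⟩
          rw [so_add, so_add, so_mul_odd (fun y => ind A y) 3 (by decide), ← hB0] at h2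
          have hB2 : Bj A 2 = so (fun y => ind A (4 * y)) := by unfold Bj; norm_num
          rw [← hB2] at h2
          have h3 := hH 3 (by norm_num)
          linarith
      linarith
  · push Not at hc
    have h1 := cert_ineq A hQ
    have h5 := hH 5 (by norm_num)
    linarith

/-! ### Induction on the period -/

theorem periodic_bound (k : ℕ) : ∀ A : Finset (ZMod (2 ^ (n + 1))), Q A →
    (∀ x, x ∈ A → x + 2 ^ k ∈ A) → 4 * aj A 0 ≤ 5 * 2 ^ n := by
  induction k with
  | zero =>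
    intro A hQ hper
    have hper' : ∀ (m : ℕ) (x : ZMod (2 ^ (n + 1))), x ∈ A → x + m ∈ A := by
      intro m
      induction m with
      | zero => intro x hx; simpa using hx
      | succ m ih =>
        intro x hx
        have := hper _ (ih x hx)
        rw [pow_zero, add_assoc] at this
        push_cast
        exact this
    have hempty : ∀ x, x ∉ A := by
      intro x hx
      have : NeZero (2 ^ (n + 1)) := ⟨by positivity⟩
      have h0 : (0 : ZMod (2 ^ (n + 1))) ∈ A := by
        have := hper' (-x).val x hx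
        rw [ZMod.natCast_zmod_val, add_neg_cancel] at this
        exact this
      apply hQ 0 0 0
      simp [h0]
    have h1 : aj A 0 ≤ 0 := by
      unfold aj sa
      apply Finset.sum_nonpos
      intro z _
      unfold ind
      rw [if_neg (hempty _)]
    have hN : (0 : ℤ) < 2 ^ n := by positivity
    linarith
  | succ k ih =>
    intro A hQ hper
    apply step A hQ
    intro j hj
    have hper' : ∀ (m : ℕ) (x : ZMod (2 ^ (n + 1))), x ∈ A → x + m * 2 ^ (k + 1) ∈ A := by
      intro m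
      induction m with
      | zero => intro x hx; simpa using hx
      | succ m ih =>
        intro x hx
        have := hper _ (ih x hx)
        push_cast
        rw [add_mul, one_mul, ← add_assoc]
        exact this
    have h := ih (Finset.univ.filter (fun z => 2 ^ j * z ∈ A)) (by
      intro a b c h
      simp only [Finset.mem_filter, Finset.mem_univ, true_and, mul_add] at h
      exact hQ _ _ _ h) (by
      intro x hx
      simp only [Finset.mem_filter, Finset.mem_univ, true_and] at hx ⊢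
      have h1 := hper' (2 ^ (j - 1)) _ hx
      have e : (2 : ZMod (2 ^ (n + 1))) ^ j * (x + 2 ^ k) =
          2 ^ j * x + ((2 ^ (j - 1) : ℕ) : ZMod (2 ^ (n + 1))) * 2 ^ (k + 1) := by
        obtain ⟨i, rfl⟩ : ∃ i, j = i + 1 := ⟨j - 1, by omega⟩
        push_cast
        ring
      rw [e]
      exact h1)
    have e2 : aj (Finset.univ.filter (fun z => 2 ^ j * z ∈ A)) 0 = aj A j := by
      unfold aj
      congr 1
      funext z
      unfold ind
      simp
    rw [e2] at h
    exact h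

theorem upper (A : Finset (ZMod (2 ^ (n + 1)))) (hQ : Q A) : 8 * A.card ≤ 5 * 2 ^ (n + 1) := by
  have h := periodic_bound (n + 1) A hQ (by
    intro x hx
    have : (2 : ZMod (2 ^ (n + 1))) ^ (n + 1) = 0 := by
      have : ((2 ^ (n + 1) : ℕ) : ZMod (2 ^ (n + 1))) = 0 := ZMod.natCast_self _
      push_cast at this
      exact this
    rw [this, add_zero]; exact hx)
  have h2 : aj A 0 = A.card := by
    unfold aj sa ind
    simp
  rw [h2] at h
  have h3 : (4 * (A.card : ℤ)) ≤ ((5 * 2 ^ n : ℕ) : ℤ) := by push_cast; exact h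
  have h4 : 4 * A.card ≤ 5 * 2 ^ n := by exact_mod_cast h3
  have h5 : 5 * 2 ^ (n + 1) = 2 * (5 * 2 ^ n) := by ring
  omega

theorem Q_of_cubeFree {m : ℕ} (A : Finset (ZMod (2 ^ m))) (h : CubeFree m 3 A) :
    ∀ a b c, ¬ (a ∈ A ∧ b ∈ A ∧ c ∈ A ∧ a + b ∈ A ∧ a + c ∈ A ∧ b + c ∈ A ∧ a + b + c ∈ A) := by
  rintro a b c ⟨h1, h2, h3, h4, h5, h6, h7⟩
  apply h
  refine ⟨![a, b, c], ?_⟩
  intro I hI
  have hI' : I = {0} ∨ I = {1} ∨ I = {2} ∨ I = {0, 1} ∨ I = {0, 2} ∨ I = {1, 2} ∨
      I = {0, 1, 2} := by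
    revert hI
    revert I
    decide
  rcases hI' with h | h | h | h | h | h | h <;> subst h
  · simpa using h1
  · simpa using h2
  · simpa using h3
  · rw [Finset.sum_pair (by decide)]; simpa using h4
  · rw [Finset.sum_pair (by decide)]; simpa using h5
  · rw [Finset.sum_pair (by decide)]; simpa using h6
  · rw [Finset.sum_insert (by decide), Finset.sum_pair (by decide)]
    simp only [Matrix.cons_val_zero, Matrix.cons_val_one, Matrix.cons_val]
    rw [← add_assoc]; exact h7

/-! ### The example -/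

/-- residues mod `8` of `L₁ ∪ L₃` -/
def R8 : Finset (ZMod 8) := {1, 3, 4, 5, 7}

theorem R8_free : ∀ a b c : ZMod 8, ¬ (a ∈ R8 ∧ b ∈ R8 ∧ c ∈ R8 ∧ a + b ∈ R8 ∧ a + c ∈ R8 ∧
    b + c ∈ R8 ∧ a + b + c ∈ R8) := by decide +kernel

/-- `ℤ/2ᵐ⁺³ → ℤ/8` -/
def r8 (m : ℕ) : ZMod (2 ^ (m + 3)) →+* ZMod 8 :=
  ZMod.castHom (by
    have : (8 : ℕ) = 2 ^ 3 := by norm_num
    rw [this]; exact pow_dvd_pow 2 (by omega)) (ZMod 8)

theorem r8_surj (m : ℕ) : Function.Surjective (r8 m) := by
  intro a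
  refine ⟨((a.val : ℕ) : ZMod (2 ^ (m + 3))), ?_⟩
  rw [map_natCast, ZMod.natCast_zmod_val]

theorem r8_fiber (m : ℕ) (a : ZMod 8) :
    (Finset.univ.filter (fun x => r8 m x = a)).card = 2 ^ m := by
  have h1 : ∀ b : ZMod 8, (Finset.univ.filter (fun x => r8 m x = b)).card =
      (Finset.univ.filter (fun x => r8 m x = 0)).card := by
    intro b
    obtain ⟨y, hy⟩ := r8_surj m b
    symm
    apply Finset.card_bij (fun x _ => x + y)
    · intro x hx
      simp only [Finset.mem_filter, Finset.mem_univ, true_and] at hx ⊢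
      rw [map_add, hx, hy, zero_add]
    · intro x _ z _ h
      exact add_right_cancel h
    · intro z hz
      simp only [Finset.mem_filter, Finset.mem_univ, true_and] at hz
      refine ⟨z - y, ?_, by ring⟩
      simp only [Finset.mem_filter, Finset.mem_univ, true_and]
      rw [map_sub, hz, hy, sub_self]
  have h2 : (Finset.univ : Finset (ZMod (2 ^ (m + 3)))).card =
      ∑ b : ZMod 8, (Finset.univ.filter (fun x => r8 m x = b)).card :=
    Finset.card_eq_sum_card_fiberwise (fun x _ => Finset.mem_univ _)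
  rw [Finset.sum_congr rfl (fun b _ => h1 b)] at h2
  rw [Finset.sum_const, Finset.card_univ, Finset.card_univ, ZMod.card, ZMod.card] at h2
  rw [h1 a]
  have h3 : 2 ^ (m + 3) = 8 * 2 ^ m := by ring
  rw [smul_eq_mul] at h2
  omega

theorem result (n : ℕ) (hn : 3 ≤ n) :
    IsGreatest {k : ℕ | ∃ A : Finset (ZMod (2 ^ n)), CubeFree n 3 A ∧ A.card = k}
      (5 * 2 ^ (n - 3)) := by
  obtain ⟨m, rfl⟩ : ∃ m, n = m + 3 := ⟨n - 3, by omega⟩
  rw [Nat.add_sub_cancel]
  constructor
  · refine ⟨Finset.univ.filter (fun x => r8 m x ∈ R8), ?_, ?_⟩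
    · rintro ⟨a, ha⟩
      have h1 := ha {0} (by simp)
      have h2 := ha {1} (by simp)
      have h3 := ha {2} (by simp)
      have h4 := ha {0, 1} (by simp)
      have h5 := ha {0, 2} (by simp)
      have h6 := ha {1, 2} (by simp)
      have h7 := ha {0, 1, 2} (by simp)
      rw [Finset.sum_singleton] at h1 h2 h3
      rw [Finset.sum_pair (by decide)] at h4 h5 h6
      rw [Finset.sum_insert (by decide), Finset.sum_pair (by decide)] at h7
      simp only [Finset.mem_filter, Finset.mem_univ, true_and, map_add] at h1 h2 h3 h4 h5 h6 h7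
      rw [← add_assoc] at h7
      exact R8_free _ _ _ ⟨h1, h2, h3, h4, h5, h6, h7⟩
    · have h : (Finset.univ.filter (fun x => r8 m x ∈ R8)).card =
          ∑ b ∈ R8, ((Finset.univ.filter (fun x => r8 m x ∈ R8)).filter
            (fun x => r8 m x = b)).card := by
        apply Finset.card_eq_sum_card_fiberwise
        intro x hx
        exact (Finset.mem_filter.1 hx).2
      rw [h]
      have h2 : ∀ b ∈ R8, ((Finset.univ.filter (fun x => r8 m x ∈ R8)).filter
            (fun x => r8 m x = b)).card = 2 ^ m := by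
        intro b hb
        rw [← r8_fiber m b]
        congr 1
        ext x
        simp only [Finset.mem_filter, Finset.mem_univ, true_and]
        constructor
        · rintro ⟨_, h⟩; exact h
        · intro h; exact ⟨by rw [h]; exact hb, h⟩
      rw [Finset.sum_congr rfl h2, Finset.sum_const, smul_eq_mul]
      rfl
  · rintro k ⟨A, hA, rfl⟩
    have h := upper (n := m + 2) A (Q_of_cubeFree A hA)
    have h3 : 5 * 2 ^ (m + 2 + 1) = 8 * (5 * 2 ^ m) := by ring
    exact Nat.le_of_mul_le_mul_left (h.trans (le_of_eq h3)) (by norm_num)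


end Pool.Agent.Results.MP_18fe88_co.FiveEighths
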